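import Pool.Agent.Lib.MP_720f8f_co.StarLower
import Pool.Agent.Lib.MP_720f8f_co.StarThree

/-!
# Star networks with three counters: `R*_3(n) = 5 n / 3 + O(1)`
-/

set_option autoImplicit false

namespace Pool.Agent.Results.MP_720f8f_co.StarThree

open ReachNet

/-- `L` is a star network: a `t`-reachability network all of whose transpositions are of the
form `(0, a)` (the first position is called `0` here). -/
def IsStarNet {t n : ℕ} (h : t ≤ n) (L : List (Fin n × Fin n)) : Prop :=
  IsNet h L ∧ ∀ T ∈ L, T.1.val = 0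

/-- `RStar t n` is the minimum length of a `t`-reachability network on `n` positions which
consists of star transpositions. -/
noncomputable def RStar (t n : ℕ) : ℕ :=
  sInf {l | ∃ (h : t ≤ n) (L : List (Fin n × Fin n)), IsStarNet h L ∧ L.length = l}

theorem lower_net {n : ℕ} (h : 3 ≤ n) (L : List (Fin n × Fin n)) (hL : IsStarNet h L) :
    5 * n ≤ 3 * L.length + 10 := by
  have h1 := lowerS (by norm_num) hL.1 hL.2
  have h2 : dlt 3 = 1 / 3 := by
    unfold dlt
    norm_num
  rw [h2] at h1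
  have h3 : (5 : ℝ) * n ≤ 3 * L.length + 10 := by
    push_cast at h1
    linarith
  exact_mod_cast h3

theorem upper_net {n : ℕ} (hn : 6 ≤ n) (h : 3 ≤ n) :
    ∃ L : List (Fin n × Fin n), IsStarNet h L ∧ L.length ≤ 2 * n - n / 3 := by
  obtain ⟨L, h1, h2, h3⟩ := ST.exists_star3 hn h
  exact ⟨L, ⟨h1, h2⟩, h3⟩

/-- **The shortest star networks for three counters, up to an additive constant.** -/
theorem result :
    (∀ (n : ℕ) (h : 3 ≤ n) (L : List (Fin n × Fin n)), IsStarNet h L →
      5 * n ≤ 3 * L.length + 10) ∧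
    (∀ (n : ℕ) (h : 3 ≤ n), 6 ≤ n →
      ∃ L : List (Fin n × Fin n), IsStarNet h L ∧ L.length ≤ 2 * n - n / 3) ∧
    (∀ n : ℕ, 6 ≤ n → 5 * n ≤ 3 * RStar 3 n + 10 ∧ 3 * RStar 3 n ≤ 5 * n + 2) := by
  refine ⟨fun n h L hL => lower_net h L hL, fun n h hn => upper_net hn h, fun n hn => ?_⟩
  have h : 3 ≤ n := by omega
  obtain ⟨L0, hL0, hlen⟩ := upper_net hn h
  have hne : {l | ∃ (h : 3 ≤ n) (L : List (Fin n × Fin n)), IsStarNet h L ∧
      L.length = l}.Nonempty := ⟨L0.length, h, L0, hL0, rfl⟩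
  constructor
  · obtain ⟨h', L, hL, hl⟩ := Nat.sInf_mem hne
    have := lower_net h' L hL
    rw [hl] at this
    exact this
  · have h1 : RStar 3 n ≤ L0.length := Nat.sInf_le ⟨h, L0, hL0, rfl⟩
    omega

end Pool.Agent.Results.MP_720f8f_co.StarThree
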